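import Mathlib

/-! Arithmetic for the linear range of MP_008206_co: `D ≥ 2 w + 1`, `D ≥ w + k - 3`. -/

namespace SIFU

/-- `T` is the gap; `hA`, `hB` are the two lower bounds for `T` -/
theorem ar25 {w d ka l D k Q Y io f T : ℤ} (hw : 0 ≤ w) (hd : 0 ≤ d)
    (hl : 0 ≤ l) (hio : 0 ≤ io) (hf : 0 ≤ f) (hkd : ka + d ≤ w) (hD1 : 2 * w + 1 ≤ D)
    (hD2 : w + k - 3 ≤ D) (h1 : io * l + f + Y ≤ Q + ka) (h2 : D * l ≤ Q + l + ka * l)
    (hA : w + d * w + Q ≤ T + ka + w * l + Y)
    (hB : w + d * (w + 1) + Q ≤ T + ka + w * l + d * (k - 1)) : 0 ≤ T := by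
  by_contra hT
  have hT' : T ≤ -1 := by omega
  rcases lt_or_ge l d with hld | hld
  · have h3 : 0 ≤ io * l := mul_nonneg hio hl
    have h4 : 0 ≤ w * (d - 1 - l) := mul_nonneg hw (by omega)
    nlinarith
  · have h3 : 0 ≤ (w - d - ka) * l := mul_nonneg (by omega) hl
    have h4 : 0 ≤ (D - 1 - 2 * w + d) * (l - d) := mul_nonneg (by omega) (by omega)
    have h5 : 0 ≤ d * (D - w - k + 3) := mul_nonneg hd (by omega)
    have h6 : 0 ≤ d * (d - 1) := by
      rcases eq_or_lt_of_le hd with h | h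
      · rw [← h]; simp
      · exact mul_nonneg hd (by omega)
    nlinarith

/-- the range: either the hypotheses of `ar25` or the trivial bound -/
theorem range25 {k x w D : ℤ} (hk : 2 ≤ k) (hx : 0 ≤ x) (hw : 0 ≤ w) (hD : D + w = x + 1)
    (h1 : k ≤ x + 8) (h2 : k ^ 2 + 2 * k * x ≤ x ^ 2 + 9 * x + 5 * k) :
    (2 * w + 1 ≤ D ∧ w + k - 3 ≤ D) ∨ (k + x) * D ≤ (x + 1) ^ 2 + (k + x - 1) := by
  by_cases h3 : (k - w - 2) * x ≤ k * w
  · right
    have : D = x + 1 - w := by omega
    subst this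
    nlinarith
  left
  push Not at h3
  have hxpos : 0 < x := by
    by_contra h
    have : x = 0 := by omega
    subst this
    nlinarith
  have hwk : w + 3 ≤ k := by
    by_contra h
    have : 0 ≤ (w + 2 - k) * x := mul_nonneg (by omega) hx
    nlinarith
  have hA : 3 * w ≤ x := by
    by_contra h
    have h4 : x ≤ 3 * w - 1 := by omega
    -- 3 (k - w - 2) > k
    have h5 : k < 3 * (k - w - 2) := by
      by_contra h6
      have h7 : 3 * (k - w - 2) ≤ k := by omega
      have h8 : (k - w - 2) * x ≤ (k - w - 2) * (3 * w) :=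
        mul_le_mul_of_nonneg_left (by omega) (by omega)
      have h9 : 3 * (k - w - 2) * w ≤ k * w := mul_le_mul_of_nonneg_right h7 hw
      nlinarith
    have h6 : x ≤ 2 * k - 8 := by omega
    rcases le_or_gt k 5 with h7 | h7
    · -- k = 3, 4, 5
      have hw1 : w ≤ 1 := by omega
      interval_cases w
      · omega
      · have : k = 5 := by omega
        subst this
        omega
    · nlinarith [mul_nonneg (show (0 : ℤ) ≤ 2 * k - 8 - x by omega) (show (0 : ℤ) ≤ x + 1 by omega)]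
  have hB : 2 * w + k ≤ x + 4 := by
    by_contra h
    have h4 : x + 5 - k ≤ 2 * w := by omega
    have h5 : (x + 5 - k) * (x + k) ≤ 2 * w * (x + k) :=
      mul_le_mul_of_nonneg_right h4 (by omega)
    nlinarith
  constructor <;> omega

end SIFU
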